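import Pool.Agent.H51.CN.Final

open scoped Nat
open Finset Filter Topology Pool.Agent.H51.CN

namespace Pool.Agent.Results.MP_406a31_an.GrowthRate

/-- Let `cₙ` be the infimum of the norms `‖A₁ ⊙ ⋯ ⊙ Aₙ‖` over all commuting normal operators of
norm one on complex Hilbert spaces (in an arbitrary fixed universe). Then for all `n ≥ 1`

* `cₙ² ∑_{|α| = n} (n!/α!)² ≥ 1`, the sum being over multi-indices `α` with `n` entries,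
* `0.6896ⁿ ≤ n! cₙ ≤ 4 · 0.8245ⁿ`,
* `(m + n)! c_{m+n} ≤ (m! c_m) (n! c_n)` for `m ≥ 1`, and `(n! cₙ)^{1/n}` converges to a number
  `θ ∈ [0.6896, 0.8245]` with `θⁿ ≤ n! cₙ` for all `n ≥ 1`;

moreover `c₂ = √2 - 1` and `0.1036 < c₃ < 0.1095`. -/
theorem result.{u} :
    (∀ n : ℕ, 1 ≤ n → 1 ≤ c.{u} n ^ 2 * ∑ α ∈ piAntidiag (univ : Finset (Fin n)) n,
      ((Nat.multinomial univ α : ℕ) : ℝ) ^ 2) ∧
    (∀ n : ℕ, 1 ≤ n → (0.6896 : ℝ) ^ n ≤ n ! * c.{u} n ∧ n ! * c.{u} n ≤ 4 * (0.8245 : ℝ) ^ n) ∧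
    (∀ m n : ℕ, 1 ≤ m → 1 ≤ n →
      (m + n)! * c.{u} (m + n) ≤ (m ! * c.{u} m) * (n ! * c.{u} n)) ∧
    (∃ θ : ℝ, 0.6896 ≤ θ ∧ θ ≤ 0.8245 ∧ (∀ n : ℕ, 1 ≤ n → θ ^ n ≤ n ! * c.{u} n) ∧
      Tendsto (fun n : ℕ => (n ! * c.{u} n) ^ (1 / (n : ℝ))) atTop (𝓝 θ)) ∧
    c.{u} 2 = Real.sqrt 2 - 1 ∧ 0.1036 < c.{u} 3 ∧ c.{u} 3 < 0.1095 := by
  obtain ⟨h1, h2, h3, h4⟩ := main.{u}
  refine ⟨h1, h2, fun m n hm hn => ?_, h3, h4⟩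
  have hfac : ∀ n : ℕ, (0 : ℝ) < n ! := fun n => by exact_mod_cast n.factorial_pos
  have hc : ∀ n : ℕ, 1 ≤ n → (n ! : ℝ) * c.{u} n = W n := by
    intro n hn
    rw [c_eq.{u} hn, mul_div_cancel₀ _ (hfac n).ne']
  rw [hc _ (by omega), hc m hm, hc n hn]
  exact W_add_le

end Pool.Agent.Results.MP_406a31_an.GrowthRate
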