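import Pool.Agent.H51.CN.Exact

open scoped Nat
open Pool.Agent.H51.CN

namespace Pool.Agent.Results.MP_406a31_an.PermanentFormula

/-- Let `cₙ` be the infimum of the norms `‖A₁ ⊙ ⋯ ⊙ Aₙ‖` over all commuting normal operators of
norm one on complex Hilbert spaces. For `n ≥ 1`, `n! cₙ` is the minimum, over all complex
`n × n` matrices `a` with `|a_{ij}| ≤ 1 = |a_{ii}|`, of the largest absolute value of the permanent
of an `n × n` matrix whose columns are columns of `a` (repetitions allowed). -/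
theorem result.{u} (n : ℕ) (hn : 1 ≤ n) :
    IsLeast {r : ℝ | ∃ a : Matrix (Fin n) (Fin n) ℂ, (∀ i j, ‖a i j‖ ≤ 1) ∧ (∀ i, ‖a i i‖ = 1) ∧
      r = ⨆ k : Fin n → Fin n, ‖(a.submatrix id k).permanent‖} (n ! * c.{u} n) := by
  have hfac : (0 : ℝ) < n ! := by exact_mod_cast n.factorial_pos
  have hc : (n ! : ℝ) * c.{u} n = W n := by
    rw [c_eq.{u} hn, mul_div_cancel₀ _ hfac.ne']
  rw [hc]
  constructor
  · obtain ⟨a, ha, ha2⟩ := exists_W_eq n
    exact ⟨a, ha.1, ha.2, ha2.symm⟩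
  · rintro r ⟨a, ha1, ha2, rfl⟩
    exact W_le (a := a) ⟨ha1, ha2⟩

end Pool.Agent.Results.MP_406a31_an.PermanentFormula
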